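import Pool.Agent.Lib.MP_144d21_co.X2.H79.Four
import Pool.Agent.Lib.MP_144d21_co.X2.H79.Hinge
import Pool.Agent.Lib.MP_144d21_co.X2.IfaceC

/-!
# MP_144d21_co, X2 (helper25): module CLCH (backup)
-/

set_option autoImplicit false
set_option linter.unusedSectionVars false

namespace Pool.Agent.Xu.X2.H25

open Finset Pool.Agent.Xu Pool.Agent.Xu.X2.H41

/-- a vertex with at most two neighbours is in no implied pair -/
theorem deg2_not {V : Type} [Fintype V] [DecidableEq V] {p : V → Fin 3 → ℝ} (hp : GP p)
    {G : SimpleGraph V} {S : Finset V} {u y : V} (hu : u ∈ S) (hy : y ∈ S) (huy : y ≠ u)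
    (hny : y ∉ nb G S u) (h2 : (nb G S u).card ≤ 2) : row p u y ∉ rs p G S := by
  have e : insert u (nb G S u) ∪ S.erase u = S := by
    ext z
    simp only [mem_union, mem_insert, mem_erase, mem_nb]
    constructor
    · rintro ((rfl | h) | h)
      · exact hu
      · exact h.1
      · exact h.2
    · intro hz
      by_cases hzu : z = u
      · exact Or.inl (Or.inl hzu)
      · exact Or.inr ⟨hzu, hz⟩
  have e2 : insert u (nb G S u) ∩ S.erase u ⊆ nb G S u := by
    intro z hz
    have h1 := mem_inter.1 hz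
    rcases mem_insert.1 h1.1 with h3 | h3
    · exact absurd h3 (mem_erase.1 h1.2).1
    · exact h3
  have h := H79.hinge V p hp G (insert u (nb G S u)) (S.erase u) ?_ ((card_le_card e2).trans h2)
    u (mem_insert_self _ _) (notMem_erase u S) y (mem_erase.2 ⟨huy, hy⟩) ?_
  · rwa [e] at h
  · intro a ha ha' c hc hc' hac
    have hau : a = u := by
      by_contra hne
      rcases mem_insert.1 ha with h3 | h3
      · exact hne h3
      · exact ha' (mem_erase.2 ⟨hne, (mem_nb.1 h3).1⟩)
    subst hau
    exact hc' (mem_insert_of_mem (mem_nb.2 ⟨(mem_erase.1 hc).2, hac⟩))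
  · intro h3
    rcases mem_insert.1 h3 with h4 | h4
    · exact huy h4
    · exact hny h4

theorem clch : ClchS := by
  intro V _ _ p hp G S h m b hc hm i hi0 him x hxS hxb hrow
  by_contra hnx
  have hnb := hc.nbb i hi0 him
  have ha1 : b (i - 1) ≠ b (i + 1) := fun e => by
    have := hc.inj _ (by omega) _ (by omega) e
    omega
  have ha2 : b (i - 1) ≠ h := hc.bh _ (by omega)
  have ha3 : b (i + 1) ≠ h := hc.bh _ (by omega)
  have hcard : (nb G S (b i)).card = 3 := by
    rw [hnb]
    exact card_eq_three.2 ⟨_, _, _, ha1, ha2, ha3, rfl⟩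
  have hcl := H79.four V p hp G S (b i) x (hc.bS i him.le) hxS hxb hnx hcard hrow
  have h1 : b (i - 1) ∈ insert x (nb G S (b i)) := by rw [hnb]; simp
  have h2 : b (i + 1) ∈ insert x (nb G S (b i)) := by rw [hnb]; simp
  by_cases hi1 : i + 1 < m
  · have hnb' := hc.nbb (i + 1) (by omega) hi1
    have e : nb G (S.erase (b i)) (b (i + 1)) ⊆ {b (i + 1 + 1), h} := by
      intro z hz
      have hz' := mem_nb.1 hz
      have hz1 : z ∈ nb G S (b (i + 1)) := mem_nb.2 ⟨(mem_erase.1 hz'.1).2, hz'.2⟩
      rw [hnb'] at hz1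
      simp only [mem_insert, mem_singleton, Nat.add_sub_cancel] at hz1 ⊢
      rcases hz1 with h3 | h3
      · exact absurd h3 (mem_erase.1 hz'.1).1
      · exact h3
    refine deg2_not hp.1 (hcl.1 h2) (hcl.1 h1) ha1 (fun h3 => ?_)
      ((card_le_card e).trans card_le_two) (hcl.2 _ h2 _ h1)
    have h4 := e h3
    simp only [mem_insert, mem_singleton] at h4
    rcases h4 with h5 | h5
    · have := hc.inj _ (by omega) _ (by omega) h5
      omega
    · exact ha2 h5
  · have hnb' := hc.nbb (i - 1) (by omega) (by omega)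
    have e : nb G (S.erase (b i)) (b (i - 1)) ⊆ {b (i - 1 - 1), h} := by
      intro z hz
      have hz' := mem_nb.1 hz
      have hz1 : z ∈ nb G S (b (i - 1)) := mem_nb.2 ⟨(mem_erase.1 hz'.1).2, hz'.2⟩
      rw [hnb', show i - 1 + 1 = i by omega] at hz1
      simp only [mem_insert, mem_singleton] at hz1 ⊢
      rcases hz1 with h3 | h3 | h3
      · exact Or.inl h3
      · exact absurd h3 (mem_erase.1 hz'.1).1
      · exact Or.inr h3
    refine deg2_not hp.1 (hcl.1 h1) (hcl.1 h2) ha1.symm (fun h3 => ?_)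
      ((card_le_card e).trans card_le_two) (hcl.2 _ h1 _ h2)
    have h4 := e h3
    simp only [mem_insert, mem_singleton] at h4
    rcases h4 with h5 | h5
    · have := hc.inj _ (by omega) _ (by omega) h5
      omega
    · exact ha3 h5

end Pool.Agent.Xu.X2.H25
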