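import Pool.Agent.Lib.MP_144d21_co.X2.H25.Conn
import Pool.Agent.Lib.MP_144d21_co.X2.IfaceS

/-!
# MP_144d21_co, X2 (helper25): modules TMON, SIDE, NC1, NC2
-/

set_option autoImplicit false
set_option linter.unusedSectionVars false

namespace Pool.Agent.Xu.X2.H25

open Finset Pool.Agent.Xu Pool.Agent.Xu.X2.H41

/-- TMON -/
theorem tmon : TmonS := fun _ _ _ _ _ _ hG h => ThreeConn.mono h fun _ _ _ _ ha => hG ha

section
variable {V : Type} [Fintype V] [DecidableEq V] {G : SimpleGraph V} {S T P Q T' A B : Finset V}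

/-- moving a vertex `v` of the first side into the separator -/
theorem _root_.Pool.Agent.Xu.X2.H41.Sepn.movP {v : V} (h : Sepn G S T P Q) (hv : v ∈ P)
    (h0 : (P.erase v).Nonempty) : Sepn G S (insert v T) (P.erase v) Q := by
  refine ⟨fun x => ?_, fun x hx hx' => ?_, fun x hx hx' => ?_,
    fun x hx hx' => h.pq x (mem_of_mem_erase hx) hx', h0, h.q0,
    fun x hx y hy => h.ne x (mem_of_mem_erase hx) y hy⟩
  · rw [h.un x, mem_insert, mem_erase]
    by_cases hxa : x = v
    · subst hxa; tauto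
    · tauto
  · rcases mem_insert.1 hx with rfl | h1
    · exact (mem_erase.1 hx').1 rfl
    · exact h.tp x h1 (mem_of_mem_erase hx')
  · rcases mem_insert.1 hx with rfl | h1
    · exact h.pq x hv hx'
    · exact h.tq x h1 hx'

theorem sepn_card (h : Sepn G S T P Q) : T.card + P.card + Q.card = S.card := by
  have e : S = T ∪ P ∪ Q := by
    ext x
    rw [mem_union, mem_union, or_assoc, h.un x]
  rw [e, card_union_of_disjoint, card_union_of_disjoint]
  · exact disjoint_left.2 fun x hx hx' => h.tp x hx hx'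
  · rw [disjoint_union_left]
    exact ⟨disjoint_left.2 fun x hx hx' => h.tq x hx hx',
      disjoint_left.2 fun x hx hx' => h.pq x hx hx'⟩

/-- in a 3-connected graph the closed side `T ∪ P` of a separation of order 3 is connected -/
theorem side_conn (h3 : C3 G S) (hc : Cut3 G S T P Q) : Conn G (T ∪ P) := by
  obtain ⟨hT3, hs⟩ := cut3_iff.1 hc
  have hG : ∀ u ∈ P, ∀ v ∈ T ∪ P, G.Adj u v → G.Adj u v := fun _ _ _ _ h => h
  have main : ∀ A B, Sepn G (T ∪ P) ∅ A B → (T ∩ A).card ≤ 1 → False := by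
    intro A B hs' hcard
    rcases Nat.le_one_iff_eq_zero_or_eq_one.1 hcard with h0 | h1
    · rw [card_eq_zero] at h0
      have := h3.2 _ _ _ (hs.liftS hG hs' fun x hx hxA => by
        have : x ∈ T ∩ A := mem_inter.2 ⟨hx, hxA⟩
        rw [h0] at this
        exact notMem_empty x this)
      simp at this
    · obtain ⟨a, ha⟩ := card_eq_one.1 h1
      have haTA : a ∈ T ∩ A := by rw [ha]; exact mem_singleton_self a
      obtain ⟨haT, haA⟩ := mem_inter.1 haTA
      have h0 : (A.erase a).Nonempty := by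
        obtain ⟨x, hx, hax⟩ := cut3_touch h3 hc haT
        refine ⟨x, mem_erase.2 ⟨hax.ne', ?_⟩⟩
        rcases (hs'.un x).1 (mem_union_right _ hx) with h1 | h1 | h1
        · exact absurd h1 (notMem_empty x)
        · exact h1
        · exact absurd hax (hs'.ne a haA x h1)
      have hs2 := hs'.movP haA h0
      have := h3.2 _ _ _ (hs.liftS hG hs2 fun x hx hxA => by
        have h1 := mem_erase.1 hxA
        have : x ∈ T ∩ A := mem_inter.2 ⟨hx, h1.2⟩
        rw [ha, mem_singleton] at this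
        exact h1.1 this)
      simp at this
  have h2 : Conn G ((T ∪ P) \ ∅) := by
    refine (conn_sdiff_iff (empty_subset _)).2 ⟨?_, fun A B hs' => ?_⟩
    · rw [sdiff_empty]
      exact hc.pn.mono subset_union_right
    · by_cases hA : (T ∩ A).card ≤ 1
      · exact main A B hs' hA
      · refine main B A hs'.symm ?_
        have h1 : (T ∩ A).card + (T ∩ B).card ≤ T.card := by
          rw [← card_union_of_disjoint]
          · exact card_le_card (union_subset inter_subset_left inter_subset_left)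
          · exact disjoint_left.2 fun x hx hx' =>
              hs'.pq x (mem_inter.1 hx).2 (mem_inter.1 hx').2
        omega
  rwa [sdiff_empty] at h2

end

/-- SIDE -/
theorem side : SideS := by
  intro V _ _ G S T P Q h3 hc
  obtain ⟨h4, h3'⟩ := threeConn_iff.1 h3
  obtain ⟨hT3, hs⟩ := cut3_iff.1 hc
  have hcard : 4 ≤ (T ∪ P).card := by
    rw [card_union_of_disjoint hc.tp, hT3]
    have := card_pos.2 hc.pn
    omega
  refine ⟨side_conn h3' hc, threeConn_iff.2 ⟨hcard, c3_side_clique h3' hs (by omega)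
    (fun u _ v _ h => Or.inl h) fun u hu v hv huv => Or.inr ⟨huv, hu, hv⟩⟩, fun a ha =>
    ⟨cut3_touch h3' hc ha, cut3_touch h3' hc.symm ha⟩⟩

/-- NC1 -/
theorem nc1 : Nc1S := by
  intro V _ _ G S v h3 hn h5 hv
  obtain ⟨h4, h3'⟩ := threeConn_iff.1 h3
  refine ⟨four_le_deg h3' hn h5 hv, threeConn_erase h3 hn h5 hv, fun F hF T P Q hc => ?_⟩
  by_contra hcon
  push Not at hcon
  obtain ⟨hT3, hs⟩ := cut3_iff.1 hc
  have hs1 : Sepn G (S.erase v) T P Q := hs.antiS fun u _ w _ h => Or.inl h
  have hs2 : Sepn G S T P (insert v Q) := by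
    refine ⟨fun x => ?_, hs1.tp, fun x hx hx' => ?_, fun x hx hx' => ?_, hs1.p0,
      insert_nonempty v Q, fun x hx y hy hxy => ?_⟩
    · have e := hs1.un x
      rw [mem_erase] at e
      rw [mem_insert]
      by_cases hx : x = v
      · subst hx; simp [hv]
      · tauto
    · rcases mem_insert.1 hx' with rfl | h1
      · exact (mem_erase.1 (hs1.subT hx)).1 rfl
      · exact hs1.tq x hx h1
    · rcases mem_insert.1 hx' with rfl | h1
      · exact (mem_erase.1 (hs1.subP hx)).1 rfl
      · exact hs1.pq x hx h1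
    · rcases mem_insert.1 hy with rfl | h1
      · exact hcon x hx (mem_nb.2 ⟨mem_of_mem_erase (hs1.subP hx), hxy.symm⟩)
      · exact hs1.ne x hx y h1 hxy
  have := four_le h3' hn hs2
  omega

/-- NC2 -/
theorem nc2 : Nc2S := by
  intro V _ _ G S v w h3 hn h5 hv hw hvw
  obtain ⟨h4, h3'⟩ := threeConn_iff.1 h3
  have hdel : ∀ {x y}, G.Adj x y → ¬ (x = v ∧ y = w) → ¬ (x = w ∧ y = v) →
      (del G v w).Adj x y := by
    intro x y h h1 h2
    simp only [del]
    tauto
  -- small separations separate `v` and `w`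
  have key : ∀ T P Q, Sepn (del G v w) S T P Q → T.card ≤ 3 →
      (v ∈ P ∧ w ∈ Q) ∨ (w ∈ P ∧ v ∈ Q) := by
    intro T P Q hs hT
    by_contra hcon
    push Not at hcon
    have := four_le h3' hn (hs.antiS (G := G) fun x hx y hy hxy => hdel hxy
      (fun e => hcon.1 (e.1 ▸ hx) (e.2 ▸ hy)) fun e => hcon.2 (e.1 ▸ hx) (e.2 ▸ hy))
    omega
  have key2 : ∀ T P Q x y, Sepn (del G v w) S T P Q → T.card ≤ 2 → x ∈ P → y ∈ Q →
      (x = v ∧ y = w ∨ x = w ∧ y = v) → P.card ≤ 1 := by
    intro T P Q x y hs hT hx hy hxy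
    by_contra hlt
    have h0 : (P.erase x).Nonempty := by
      rw [← card_pos, card_erase_of_mem hx]
      omega
    have hs2 := hs.movP hx h0
    have hs3 : Sepn G S (insert x T) (P.erase x) Q := hs2.antiS fun a ha b hb hab => by
      have hax : a ≠ x := (mem_erase.1 ha).1
      have haP : a ∈ P := (mem_erase.1 ha).2
      refine hdel hab (fun e => ?_) fun e => ?_
      · rcases hxy with ⟨e1, e2⟩ | ⟨e1, e2⟩
        · exact hax (e.1.trans e1.symm)
        · exact hs.pq a haP ((e.1.trans e2.symm) ▸ hy)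
      · rcases hxy with ⟨e1, e2⟩ | ⟨e1, e2⟩
        · exact hs.pq a haP ((e.1.trans e2.symm) ▸ hy)
        · exact hax (e.1.trans e1.symm)
    have h6 := four_le h3' hn hs3
    have h7 := card_insert_le x T
    omega
  refine ⟨threeConn_iff.2 ⟨h4, by omega, fun T P Q hs => ?_⟩, fun T P Q hc => ?_⟩
  · by_contra hlt
    have hT : T.card ≤ 2 := by omega
    have hcd := sepn_card hs
    rcases key T P Q hs (by omega) with ⟨h1, h2⟩ | ⟨h1, h2⟩
    · have e1 := key2 T P Q v w hs hT h1 h2 (Or.inl ⟨rfl, rfl⟩)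
      have e2 := key2 T Q P w v hs.symm hT h2 h1 (Or.inr ⟨rfl, rfl⟩)
      omega
    · have e1 := key2 T P Q w v hs hT h1 h2 (Or.inr ⟨rfl, rfl⟩)
      have e2 := key2 T Q P v w hs.symm hT h2 h1 (Or.inl ⟨rfl, rfl⟩)
      omega
  · obtain ⟨hT3, hs⟩ := cut3_iff.1 hc
    rcases key T P Q hs (by omega) with ⟨h1, h2⟩ | ⟨h1, h2⟩
    · exact Or.inl h1
    · exact Or.inr h1

end Pool.Agent.Xu.X2.H25
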