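import Pool.Agent.Lib.MP_144d21_co.X2.Defs
import Pool.Agent.Lib.MP_144d21_co.X2.H41.Struct

/-!
# MP_144d21_co, X2 (helper25): separations, `ThreeConn`, sides of 3-cuts

`Sepn`, `C3` are those of helper41's Struct.lean: `C3 G S` = 3-connected, `K_3` included.
-/

set_option autoImplicit false
set_option linter.unusedSectionVars false

namespace Pool.Agent.Xu.X2.H25

open Finset Pool.Agent.Xu Pool.Agent.Xu.X2.H41

variable {V : Type} [Fintype V] [DecidableEq V] {G G' : SimpleGraph V}
  {S T P Q T' A B : Finset V}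

theorem _root_.Pool.Agent.Xu.X2.H41.Sepn.subT (h : Sepn G S T P Q) : T ⊆ S := fun x hx =>
  (h.un x).2 (Or.inl hx)

theorem _root_.Pool.Agent.Xu.X2.H41.Sepn.subP (h : Sepn G S T P Q) : P ⊆ S := fun x hx =>
  (h.un x).2 (Or.inr (Or.inl hx))

theorem _root_.Pool.Agent.Xu.X2.H41.Sepn.subQ (h : Sepn G S T P Q) : Q ⊆ S := fun x hx =>
  (h.un x).2 (Or.inr (Or.inr hx))

/-- connectedness after removal of `T` -/
theorem conn_sdiff_iff (hT : T ⊆ S) :
    Conn G (S \ T) ↔ (S \ T).Nonempty ∧ ∀ P Q, ¬ Sepn G S T P Q := by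
  constructor
  · rintro ⟨h0, h⟩
    refine ⟨h0, fun P Q hs => ?_⟩
    obtain ⟨a, ha, b, hb, hba, hab⟩ := h P (fun x hx => mem_sdiff.2 ⟨hs.subP hx,
      fun hxT => hs.tp x hxT hx⟩) hs.p0 (by
        rintro rfl
        obtain ⟨q, hq⟩ := hs.q0
        exact hs.pq q (mem_sdiff.2 ⟨hs.subQ hq, fun hqT => hs.tq q hqT hq⟩) hq)
    have hbS := mem_sdiff.1 hb
    rcases (hs.un b).1 hbS.1 with h1 | h1 | h1
    · exact hbS.2 h1
    · exact hba h1
    · exact hs.ne a ha b h1 hab
  · rintro ⟨h0, h⟩
    refine ⟨h0, fun A hA hA0 hne => ?_⟩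
    by_contra hcon
    push Not at hcon
    refine h A ((S \ T) \ A) ⟨fun x => ?_, fun x hx hx' => ?_, fun x hx hx' => ?_,
      fun x hx hx' => ?_, hA0, ?_, fun x hx y hy hxy => ?_⟩
    · have h1 : x ∈ A → x ∈ S := fun hx => (mem_sdiff.1 (hA hx)).1
      have h2 : x ∈ T → x ∈ S := fun hx => hT hx
      simp only [mem_sdiff]
      tauto
    · exact (mem_sdiff.1 (hA hx')).2 hx
    · exact (mem_sdiff.1 (mem_sdiff.1 hx').1).2 hx
    · exact (mem_sdiff.1 hx').2 hx
    · rw [sdiff_nonempty]
      exact fun hsub => hne (subset_antisymm hA hsub)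
    · exact hcon x hx y (mem_sdiff.1 hy).1 (mem_sdiff.1 hy).2 hxy

/-- `ThreeConn` in terms of separations -/
theorem threeConn_iff : ThreeConn G S ↔ 4 ≤ S.card ∧ C3 G S := by
  constructor
  · rintro ⟨h4, ⟨h2, hc, h1⟩, h3⟩
    refine ⟨h4, by omega, fun T P Q hs => ?_⟩
    by_contra hT
    have hTS := hs.subT
    have hc' : T.card = 0 ∨ T.card = 1 ∨ T.card = 2 := by omega
    rcases hc' with hc' | hc' | hc'
    · rw [card_eq_zero] at hc'
      subst hc'
      have : Conn G (S \ ∅) := by rwa [sdiff_empty]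
      exact ((conn_sdiff_iff (empty_subset S)).1 this).2 P Q hs
    · obtain ⟨x, rfl⟩ := card_eq_one.1 hc'
      have hx : x ∈ S := hTS (mem_singleton_self x)
      have : Conn G (S \ {x}) := by rw [sdiff_singleton_eq_erase]; exact h1 x hx
      exact ((conn_sdiff_iff hTS).1 this).2 P Q hs
    · obtain ⟨x, y, hxy, rfl⟩ := card_eq_two.1 hc'
      have hx : x ∈ S := hTS (by simp)
      have hy : y ∈ S := hTS (by simp)
      have e : S \ {x, y} = (S.erase x).erase y := by
        ext z; simp only [mem_sdiff, mem_insert, mem_singleton, mem_erase]; tauto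
      have : Conn G (S \ {x, y}) := by rw [e]; exact h3 x hx y hy hxy
      exact ((conn_sdiff_iff hTS).1 this).2 P Q hs
  · rintro ⟨h4, -, h⟩
    have hno : ∀ T : Finset V, T.card ≤ 2 → T ⊆ S → Conn G (S \ T) := by
      intro T hT hTS
      refine (conn_sdiff_iff hTS).2 ⟨?_, fun P Q hs => ?_⟩
      · rw [sdiff_nonempty]
        intro hsub
        have := card_le_card hsub
        omega
      · have := h T P Q hs
        omega
    refine ⟨h4, ⟨by omega, ?_, fun v hv => ?_⟩, fun x hx y hy hxy => ?_⟩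
    · have := hno ∅ (by simp) (empty_subset S)
      rwa [sdiff_empty] at this
    · have := hno {v} (by simp) (singleton_subset_iff.2 hv)
      rwa [sdiff_singleton_eq_erase] at this
    · have e : S \ {x, y} = (S.erase x).erase y := by
        ext z; simp only [mem_sdiff, mem_insert, mem_singleton, mem_erase]; tauto
      have := hno {x, y} card_le_two (by
        intro z hz
        rcases mem_insert.1 hz with rfl | hz
        · exact hx
        · rw [mem_singleton] at hz; exact hz ▸ hy)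
      rwa [e] at this

theorem cut3_iff : Cut3 G S T P Q ↔ T.card = 3 ∧ Sepn G S T P Q := by
  constructor
  · intro h
    refine ⟨h.card, fun x => ?_, fun x hx hx' => disjoint_left.1 h.tp hx hx',
      fun x hx hx' => disjoint_left.1 h.tq hx hx', fun x hx hx' => disjoint_left.1 h.pq hx hx',
      h.pn, h.qn, h.ne⟩
    rw [← h.un, mem_union, mem_union, or_assoc]
  · rintro ⟨h1, h⟩
    refine ⟨h1, ?_, disjoint_left.2 fun x hx hx' => h.tp x hx hx',
      disjoint_left.2 fun x hx hx' => h.tq x hx hx',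
      disjoint_left.2 fun x hx hx' => h.pq x hx hx', h.p0, h.q0, h.ne⟩
    ext x
    rw [mem_union, mem_union, or_assoc, h.un x]

/-- fewer edges, more separations -/
theorem _root_.Pool.Agent.Xu.X2.H41.Sepn.antiS (h : Sepn G' S T P Q)
    (hG : ∀ u ∈ P, ∀ v ∈ Q, G.Adj u v → G'.Adj u v) : Sepn G S T P Q :=
  ⟨h.un, h.tp, h.tq, h.pq, h.p0, h.q0, fun x hx y hy ha => h.ne x hx y hy (hG x hx y hy ha)⟩

theorem C3.mono (h : C3 G S) (hG : ∀ u ∈ S, ∀ v ∈ S, G.Adj u v → G'.Adj u v) : C3 G' S :=
  ⟨h.1, fun T P Q hs => h.2 T P Q (hs.antiS fun u hu v hv => hG u (hs.subP hu) v (hs.subQ hv))⟩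

theorem ThreeConn.mono (h : ThreeConn G S) (hG : ∀ u ∈ S, ∀ v ∈ S, G.Adj u v → G'.Adj u v) :
    ThreeConn G' S := by
  rw [threeConn_iff] at h ⊢
  exact ⟨h.1, C3.mono h.2 hG⟩

/-- a separation of the side `T ∪ P` which leaves `T` on one side is a separation of `G[S]` -/
theorem _root_.Pool.Agent.Xu.X2.H41.Sepn.liftS (h : Sepn G S T P Q)
    (hG : ∀ u ∈ P, ∀ v ∈ T ∪ P, G.Adj u v → G'.Adj u v) (h' : Sepn G' (T ∪ P) T' A B)
    (hA : ∀ x ∈ T, x ∉ A) : Sepn G S T' A (B ∪ Q) := by
  have hAP : ∀ x ∈ A, x ∈ P := fun x hx => by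
    rcases mem_union.1 (h'.subP hx) with h1 | h1
    · exact absurd hx (hA x h1)
    · exact h1
  refine ⟨fun x => ?_, h'.tp, fun x hx hx' => ?_, fun x hx hx' => ?_, h'.p0,
    h'.q0.mono subset_union_left, fun x hx y hy hxy => ?_⟩
  · have e1 := h.un x
    have e2 := h'.un x
    rw [mem_union] at e2 ⊢
    tauto
  · rcases mem_union.1 hx' with h1 | h1
    · exact h'.tq x hx h1
    · rcases mem_union.1 (h'.subT hx) with h2 | h2
      · exact h.tq x h2 h1
      · exact h.pq x h2 h1
  · rcases mem_union.1 hx' with h1 | h1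
    · exact h'.pq x hx h1
    · exact h.pq x (hAP x hx) h1
  · rcases mem_union.1 hy with h1 | h1
    · exact h'.ne x hx y h1 (hG x (hAP x hx) y (h'.subQ h1) hxy)
    · exact h.ne x (hAP x hx) y h1 hxy

/-- the side `T ∪ P` with some edges added inside `T` is 3-connected if no small separation splits
`T` -/
theorem c3_side (h3 : C3 G S) (h : Sepn G S T P Q) (hc : 3 ≤ (T ∪ P).card)
    (hG : ∀ u ∈ P, ∀ v ∈ T ∪ P, G.Adj u v → G'.Adj u v)
    (hsp : ∀ T' A B, Sepn G' (T ∪ P) T' A B → T'.card ≤ 2 →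
      (∀ x ∈ T, x ∉ A) ∨ ∀ x ∈ T, x ∉ B) : C3 G' (T ∪ P) := by
  refine ⟨hc, fun T' A B hs => ?_⟩
  by_contra hlt
  rcases hsp T' A B hs (by omega) with h1 | h1
  · exact hlt (h3.2 _ _ _ (h.liftS hG hs h1))
  · exact hlt (h3.2 _ _ _ (h.liftS hG hs.symm h1))

/-- the side `T ∪ P` with a clique on `T` -/
theorem c3_side_clique (h3 : C3 G S) (h : Sepn G S T P Q) (hc : 3 ≤ (T ∪ P).card)
    (hG : ∀ u ∈ P, ∀ v ∈ T ∪ P, G.Adj u v → G'.Adj u v)
    (hT : ∀ u ∈ T, ∀ v ∈ T, u ≠ v → G'.Adj u v) : C3 G' (T ∪ P) := by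
  refine c3_side h3 h hc hG fun T' A B hs _ => ?_
  by_contra hcon
  push Not at hcon
  obtain ⟨⟨a, ha, haA⟩, b, hb, hbB⟩ := hcon
  exact hs.ne a haA b hbB (hT a ha b hb fun e => hs.pq a haA (e ▸ hbB))

/-- every vertex of a 3-cut has a neighbour in the first side -/
theorem cut3_touch (h3 : C3 G S) (h : Cut3 G S T P Q) {t : V} (ht : t ∈ T) :
    ∃ x ∈ P, G.Adj t x :=
  C3.touch h3 (cut3_iff.1 h).2 (by rw [h.card]) ht

/-- without 3-cuts all separations have order at least 4 -/
theorem four_le (h3 : C3 G S) (hn : ∀ T P Q, ¬ Cut3 G S T P Q) (h : Sepn G S T P Q) :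
    4 ≤ T.card := by
  have h1 := h3.2 T P Q h
  have h2 : T.card ≠ 3 := fun e => hn T P Q (cut3_iff.2 ⟨e, h⟩)
  omega

/-- adding a vertex to a separation -/
theorem _root_.Pool.Agent.Xu.X2.H41.Sepn.insS {v : V} (hv : v ∈ S)
    (h : Sepn G (S.erase v) T P Q) : Sepn G S (insert v T) P Q := by
  refine ⟨fun x => ?_, fun x hx hx' => ?_, fun x hx hx' => ?_, h.pq, h.p0, h.q0, h.ne⟩
  · have e := h.un x
    rw [mem_erase] at e
    rw [mem_insert]
    by_cases hx : x = v
    · subst hx; simp [hv]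
    · tauto
  · rcases mem_insert.1 hx with rfl | h1
    · exact (mem_erase.1 (h.subP hx')).1 rfl
    · exact h.tp x h1 hx'
  · rcases mem_insert.1 hx with rfl | h1
    · exact (mem_erase.1 (h.subQ hx')).1 rfl
    · exact h.tq x h1 hx'

/-- deleting a vertex from a graph without 3-cuts -/
theorem c3_erase (h3 : C3 G S) (hn : ∀ T P Q, ¬ Cut3 G S T P Q) (h4 : 4 ≤ S.card) {v : V}
    (hv : v ∈ S) : C3 G (S.erase v) := by
  refine ⟨by rw [card_erase_of_mem hv]; omega, fun T P Q hs => ?_⟩
  have h1 := four_le h3 hn (hs.insS hv)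
  have h2 := card_insert_le v T
  omega

theorem threeConn_erase (h3 : ThreeConn G S) (hn : ∀ T P Q, ¬ Cut3 G S T P Q)
    (h5 : 5 ≤ S.card) {v : V} (hv : v ∈ S) : ThreeConn G (S.erase v) := by
  rw [threeConn_iff] at h3 ⊢
  exact ⟨by rw [card_erase_of_mem hv]; omega, c3_erase h3.2 hn h3.1 hv⟩

/-- in a graph without 3-cuts on at least 5 vertices all degrees are at least 4 -/
theorem four_le_deg (h3 : C3 G S) (hn : ∀ T P Q, ¬ Cut3 G S T P Q) (h5 : 5 ≤ S.card) {v : V}
    (hv : v ∈ S) : 4 ≤ (nb G S v).card := by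
  by_contra hlt
  have hs : Sepn G S (nb G S v) {v} (S \ insert v (nb G S v)) := by
    refine ⟨fun x => ?_, fun x hx hx' => ?_, fun x hx hx' => ?_, fun x hx hx' => ?_,
      singleton_nonempty v, ?_, fun x hx y hy hxy => ?_⟩
    · rw [mem_singleton, mem_sdiff, mem_insert]
      have e1 : x ∈ nb G S v → x ∈ S := fun hx => (mem_nb.1 hx).1
      have e2 : x = v → x ∈ S := fun e => e ▸ hv
      tauto
    · rw [mem_singleton] at hx'
      subst hx'
      exact (mem_nb.1 hx).2.ne rfl
    · exact (mem_sdiff.1 hx').2 (mem_insert_of_mem hx)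
    · rw [mem_singleton] at hx
      subst hx
      exact (mem_sdiff.1 hx').2 (mem_insert_self _ _)
    · rw [sdiff_nonempty]
      intro hsub
      have h1 := card_le_card hsub
      have h2 := card_insert_le v (nb G S v)
      omega
    · rw [mem_singleton] at hx
      subst hx
      have h1 := mem_sdiff.1 hy
      exact h1.2 (mem_insert_of_mem (mem_nb.2 ⟨h1.1, hxy⟩))
  exact hlt (four_le h3 hn hs)

/-- a minimal side with at least two interior vertices: `L + F` is 3-connected as soon as `h` is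
adjacent to the other two vertices of `T = {h, y, z}` -/
theorem c3_min_side (h3 : C3 G S) {h y z : V} (hc : Cut3 G S {h, y, z} P Q) (h2 : 2 ≤ P.card)
    (hmin : ∀ T' P' Q', Cut3 G S T' P' Q' → P.card ≤ P'.card)
    (hG : ∀ u ∈ P, ∀ v ∈ ({h, y, z} : Finset V) ∪ P, G.Adj u v → G'.Adj u v)
    (hy : G'.Adj h y) (hz : G'.Adj h z) : C3 G' ({h, y, z} ∪ P) := by
  obtain ⟨hT3, hs⟩ := cut3_iff.1 hc
  have hyz : y ≠ z := by
    rintro rfl
    have : ({h, y, y} : Finset V).card ≤ 2 := by
      rw [show ({h, y, y} : Finset V) = {h, y} by simp]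
      exact card_le_two
    omega
  refine c3_side h3 hs ?_ hG fun T' A B hs' hT' => ?_
  · rw [card_union_of_disjoint hc.tp, hT3]
    omega
  by_contra hcon
  push Not at hcon
  obtain ⟨⟨a, ha, haA⟩, b, hb, hbB⟩ := hcon
  -- `h` lies in `T'`, `y` and `z` on different sides
  have key : ∀ A B a b, Sepn G' ({h, y, z} ∪ P) T' A B → a ∈ ({h, y, z} : Finset V) → a ∈ A →
      b ∈ ({h, y, z} : Finset V) → b ∈ B → h ∉ A := by
    intro A B a b hs' ha haA hb hbB hA
    have h1 : b ≠ h := fun e => hs'.pq h hA (e ▸ hbB)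
    simp only [mem_insert, mem_singleton] at hb
    rcases hb with rfl | rfl | rfl
    · exact h1 rfl
    · exact hs'.ne h hA _ hbB hy
    · exact hs'.ne h hA _ hbB hz
  have hhA := key A B a b hs' ha haA hb hbB
  have hhB := key B A b a hs'.symm hb hbB ha haA
  have hhT : h ∈ T' := by
    rcases (hs'.un h).1 (by simp) with h1 | h1 | h1
    · exact h1
    · exact absurd h1 hhA
    · exact absurd h1 hhB
  -- the rest of one side is a smaller side of `G[S]`
  have key2 : ∀ A B a b, Sepn G' ({h, y, z} ∪ P) T' A B → a ∈ ({h, y, z} : Finset V) → a ∈ A →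
      b ∈ ({h, y, z} : Finset V) → b ∈ B → A = {a} := by
    intro A B a b hs' ha haA hb hbB
    have hhA := key A B a b hs' ha haA hb hbB
    have hhB := key B A b a hs'.symm hb hbB ha haA
    have hab : a ≠ b := fun e => hs'.pq a haA (e ▸ hbB)
    have hah : a ≠ h := fun e => hhA (e ▸ haA)
    have hbh : b ≠ h := fun e => hhB (e ▸ hbB)
    have hTab : ∀ x ∈ ({h, y, z} : Finset V), x = h ∨ x = a ∨ x = b := by
      intro x hx
      simp only [mem_insert, mem_singleton] at hx ha hb
      rcases ha with e1 | e1 | e1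
      · exact absurd e1 hah
      · rcases hb with e2 | e2 | e2
        · exact absurd e2 hbh
        · exact absurd (e1.trans e2.symm) hab
        · rcases hx with e3 | e3 | e3
          · exact Or.inl e3
          · exact Or.inr (Or.inl (e3.trans e1.symm))
          · exact Or.inr (Or.inr (e3.trans e2.symm))
      · rcases hb with e2 | e2 | e2
        · exact absurd e2 hbh
        · rcases hx with e3 | e3 | e3
          · exact Or.inl e3
          · exact Or.inr (Or.inr (e3.trans e2.symm))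
          · exact Or.inr (Or.inl (e3.trans e1.symm))
        · exact absurd (e1.trans e2.symm) hab
    by_contra hne
    have hne0 : (A.erase a).Nonempty := by
      rw [nonempty_iff_ne_empty]
      intro h0
      rw [erase_eq_empty_iff] at h0
      rcases h0 with h0 | h0
      · rw [h0] at haA; exact absurd haA (notMem_empty a)
      · exact hne h0
    -- the separation `insert a T'`, `A.erase a`, `insert ...`
    have hs2 : Sepn G' ({h, y, z} ∪ P) (insert a T') (A.erase a) B := by
      refine ⟨fun x => ?_, fun x hx hx' => ?_, fun x hx hx' => ?_, fun x hx hx' =>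
        hs'.pq x (mem_of_mem_erase hx) hx', hne0, hs'.q0, fun x hx y hy =>
        hs'.ne x (mem_of_mem_erase hx) y hy⟩
      · rw [hs'.un x, mem_insert, mem_erase]
        by_cases hxa : x = a
        · subst hxa; tauto
        · tauto
      · rcases mem_insert.1 hx with rfl | h1
        · exact (mem_erase.1 hx').1 rfl
        · exact hs'.tp x h1 (mem_of_mem_erase hx')
      · rcases mem_insert.1 hx with rfl | h1
        · exact hs'.pq x haA hx'
        · exact hs'.tq x h1 hx'
    have hdis : ∀ x ∈ ({h, y, z} : Finset V), x ∉ A.erase a := by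
      intro x hx hxA
      rcases hTab x hx with rfl | rfl | rfl
      · exact hhA (mem_of_mem_erase hxA)
      · exact (mem_erase.1 hxA).1 rfl
      · exact hs'.pq x (mem_of_mem_erase hxA) hbB
    have hs3 := hs.liftS hG hs2 hdis
    have hc3 := h3.2 _ _ _ hs3
    have hci := card_insert_le a T'
    have hcc : (insert a T').card = 3 := by omega
    have hle := hmin _ _ _ (cut3_iff.2 ⟨hcc, hs3⟩)
    have hsub : A.erase a ⊆ P := fun x hx => by
      rcases mem_union.1 (hs'.subP (mem_of_mem_erase hx)) with h1 | h1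
      · exact absurd hx (hdis x h1)
      · exact h1
    have heq := eq_of_subset_of_card_le hsub hle
    -- `T'` has a second element, which is in `P`
    have hT2 : T'.card = 2 := by
      have : a ∉ T' := fun h1 => hs'.tp a h1 haA
      rw [card_insert_of_notMem this] at hcc
      omega
    obtain ⟨w, hw, hwh⟩ : ∃ w ∈ T', w ≠ h := by
      by_contra hall
      push Not at hall
      have : T' ⊆ {h} := fun x hx => mem_singleton.2 (hall x hx)
      have := card_le_card this
      rw [card_singleton] at this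
      omega
    have hwP : w ∈ P := by
      rcases mem_union.1 (hs'.subT hw) with h1 | h1
      · rcases hTab w h1 with e | e | e
        · exact absurd e hwh
        · exact absurd (e ▸ haA) (hs'.tp w hw)
        · exact absurd (e ▸ hbB) (hs'.tq w hw)
      · exact h1
    rw [← heq] at hwP
    exact hs'.tp w hw (mem_of_mem_erase hwP)
  have hA1 := key2 A B a b hs' ha haA hb hbB
  have hB1 := key2 B A b a hs'.symm hb hbB ha haA
  -- so `P ⊆ T'`, `P` has at most one element
  have hPT : P ⊆ T'.erase h := by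
    intro x hx
    have hxT : x ∉ ({h, y, z} : Finset V) := fun h1 => hs.tp x h1 hx
    rw [mem_erase]
    refine ⟨fun e => hxT (by simp [e]), ?_⟩
    rcases (hs'.un x).1 (mem_union_right _ hx) with h1 | h1 | h1
    · exact h1
    · rw [hA1, mem_singleton] at h1; exact absurd (h1 ▸ ha) hxT
    · rw [hB1, mem_singleton] at h1; exact absurd (h1 ▸ hb) hxT
  have h5 := card_le_card hPT
  rw [card_erase_of_mem hhT] at h5
  omega

/-- a minimal side: every separation of order 3 of `L + F` splits `T` -/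
theorem meets_min_side (h : Cut3 G S T P Q)
    (hmin : ∀ T' P' Q', Cut3 G S T' P' Q' → P.card ≤ P'.card)
    (hG : ∀ u ∈ P, ∀ v ∈ T ∪ P, G.Adj u v → G'.Adj u v)
    (h' : Cut3 G' (T ∪ P) T' A B) : ∃ x ∈ A, x ∈ T := by
  obtain ⟨hT3, hs⟩ := cut3_iff.1 h
  obtain ⟨hT3', hs'⟩ := cut3_iff.1 h'
  by_contra hcon
  push Not at hcon
  have hd : ∀ x ∈ T, x ∉ A := fun x hx hxA => hcon x hxA hx
  have h1 := hs.liftS hG hs' hd
  have hle := hmin _ _ _ (cut3_iff.2 ⟨hT3', h1⟩)
  have hsub : A ⊆ P := fun x hx => by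
    rcases mem_union.1 (hs'.subP hx) with h1 | h1
    · exact absurd hx (hd x h1)
    · exact h1
  have heq := eq_of_subset_of_card_le hsub hle
  have hsub2 : T' ⊆ T := fun x hx => by
    rcases mem_union.1 (hs'.subT hx) with h1 | h1
    · exact h1
    · rw [← heq] at h1; exact absurd h1 (hs'.tp x hx)
  have heq2 := eq_of_subset_of_card_le hsub2 (by omega)
  obtain ⟨b, hb⟩ := hs'.q0
  rcases mem_union.1 (hs'.subQ hb) with h1 | h1
  · rw [← heq2] at h1; exact hs'.tq b h1 hb
  · rw [← heq] at h1; exact hs'.pq b h1 hb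

end Pool.Agent.Xu.X2.H25
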