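import Pool.Agent.Lib.MP_144d21_co.XU.H51.All
import Pool.Agent.Lib.MP_144d21_co.X2.H16.Star
import Pool.Agent.Lib.MP_144d21_co.X2.H24.Numc
import Pool.Agent.Lib.MP_144d21_co.X2.H25.Clch
import Pool.Agent.Lib.MP_144d21_co.X2.H25.Side
import Pool.Agent.Lib.MP_144d21_co.X2.H33.Nca
import Pool.Agent.Lib.MP_144d21_co.X2.H33.Ees
import Pool.Agent.Lib.MP_144d21_co.X2.H40.Algc
import Pool.Agent.Lib.MP_144d21_co.X2.H40.Kn
import Pool.Agent.Lib.MP_144d21_co.X2.H40.Wrk
import Pool.Agent.Lib.MP_144d21_co.X2.H41.Casec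
import Pool.Agent.Lib.MP_144d21_co.X2.H41.Chex
import Pool.Agent.Lib.MP_144d21_co.X2.H47.Famc
import Pool.Agent.Lib.MP_144d21_co.X2.H6.Chf
import Pool.Agent.Lib.MP_144d21_co.X2.H68.Casea
import Pool.Agent.Lib.MP_144d21_co.X2.H79.Cladd
import Pool.Agent.Lib.MP_144d21_co.X2.H79.Four
import Pool.Agent.Lib.MP_144d21_co.X2.H79.Hinge
import Pool.Agent.Lib.MP_144d21_co.X2.H79.Rst4
import Pool.Agent.Lib.MP_144d21_co.X2.H79.Rst5
import Pool.Agent.Lib.MP_144d21_co.X2.H82.Alga
import Pool.Agent.Lib.MP_144d21_co.X2.H82.Thms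
import Pool.Agent.Lib.MP_144d21_co.X2.H88.Rkch
import Pool.Agent.Lib.MP_144d21_co.X2.H93.Tri1
import Pool.Agent.Lib.MP_144d21_co.X2.H98.Algb
import Pool.Agent.Lib.MP_144d21_co.X2.H98.Caseb
import Pool.Agent.Lib.MP_144d21_co.X2.H98.Fams
import Pool.Agent.Lib.MP_144d21_co.X2.H98.Key

/-!
# MP_144d21_co, X2: Theorem S' and the bound (II), all modules together
-/

set_option autoImplicit false

namespace Pool.Agent.Xu.X2.All2

open Finset Pool.Agent.Xu Pool.Agent.Xu.X2

theorem ees' : EesS := H33.ees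
theorem kn' : KnS := H40.kn
theorem zex' : ZexS := H40.zexS
theorem four' : FourS := H79.four
theorem cladd' : CladdS := H79.cladd
theorem hinge' : HingeS := H79.hinge
theorem rst4' : Rst4S := H79.rst4 cladd' All.rkne All.necnt
theorem rst5' : Rst5S := H79.rst5 All.st5 All.rkne All.necnt
theorem wrk' : WrkS := H40.wrk
theorem dcut' : DcutS := H40.dcut
theorem glur' : GlurS := H40.glur
theorem split' : SplitS := H40.split four'
theorem key' : KeyS := H98.key hinge'
theorem famr' : FamrS := H98.famr glur' split'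
theorem famb' : FambS := H98.famb zex' four'
theorem nca' : NcaS := H33.nca H25.nc2 All.betdc bnn H34.con2 ees' All.necnt
theorem ncb4' : Ncb4S := H33.ncb4 ees' H25.nc1 rst4' stx All.necnt All.rkne kn' H25.tmon
theorem ncb5' : Ncb5S := H33.ncb5 ees' H25.nc1 rst5' stx All.necnt All.rkne kn' H25.tmon
theorem nocut' : NocutS := H33.nocut ees' k4 nca' ncb4' ncb5' H21.rkred H93.hand kn' H25.nc1
theorem casea' : CaseaS := H68.casea ees' kn' wrk' dcut' t1 af key' famr' H98.min1 H98.min2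
  H25.side (H82.alga H82.omega)
theorem caseb' : CasebS := H98.caseb ees' kn' zex' wrk' dg3 dg3a H98.algb key' famr' H98.nohub
  famb' H25.side bnn
theorem rkch' : RkchS := H88.rkch zex'

/-- Theorem S' -/
theorem thms' : ThmsS := H82.thms nocut' casea' caseb'
  (H41.casec ees' kn' wrk' key' H25.side bnn H43.degge chf rkch' (H47.famc rkch' H25.clch)
    (H24.numc ees') H40.algc H93.tri1) ees' kn' H43.degge

/-- (II) -/
theorem two' : TwoS := H82.two thms'

end Pool.Agent.Xu.X2.All2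

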