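import Pool.Agent.Lib.MP_144d21_co.X2.H25.Conn
import Pool.Agent.Lib.MP_144d21_co.X2.H52.CutA

/-!
# MP_144d21_co, X2 (helper25): a minimal side of a 2-cut whose two terminals are forced equal
-/

set_option autoImplicit false
set_option linter.unusedSectionVars false

namespace Pool.Agent.Xu.X2.H25

open Finset Pool.Agent.Xu Pool.Agent.Xu.X2 Pool.Agent.Xu.X2.H41 Pool.Agent.Xu.X2.H52

variable {V : Type} [Fintype V] [DecidableEq V] {G : SimpleGraph V} {S T A B : Finset V}
  {c c1 c2 : V → ℕ}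

/-- `c` is a proper 4-colouring on `A` (nothing is said outside `A`) -/
def PC (G : SimpleGraph V) (A : Finset V) (c : V → ℕ) : Prop :=
  (∀ v ∈ A, c v < 4) ∧ ∀ u ∈ A, ∀ v ∈ A, G.Adj u v → c u ≠ c v

theorem PC.sub (h : PC G S c) (hA : A ⊆ S) : PC G A c :=
  ⟨fun v hv => h.1 v (hA hv), fun u hu v hv => h.2 u (hA hu) v (hA hv)⟩

theorem PC.perm (h : PC G A c) {a b : ℕ} (ha : a < 4) (hb : b < 4) :
    PC G A fun v => Equiv.swap a b (c v) := by
  refine ⟨fun v hv => ?_, fun u hu v hv huv he => h.2 u hu v hv huv ((Equiv.swap a b).injective he)⟩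
  have := h.1 v hv
  simp only [Equiv.swap_apply_def]
  split_ifs <;> assumption

theorem PC.comb (hs : Sepn G S T A B) (h1 : PC G (T ∪ A) c1) (h2 : PC G (T ∪ B) c2)
    (hT : ∀ v ∈ T, c1 v = c2 v) : PC G S fun v => if v ∈ B then c2 v else c1 v := by
  have hTA : ∀ v ∈ S, v ∉ B → v ∈ T ∪ A := fun v hv hB => by
    rcases (hs.un v).1 hv with h | h | h
    · exact mem_union_left _ h
    · exact mem_union_right _ h
    · exact absurd h hB
  refine ⟨fun v hv => ?_, fun u hu v hv huv => ?_⟩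
  · by_cases hB : v ∈ B
    · simp only [if_pos hB]; exact h2.1 v (mem_union_right _ hB)
    · simp only [if_neg hB]; exact h1.1 v (hTA v hv hB)
  · by_cases huB : u ∈ B <;> by_cases hvB : v ∈ B
    · simp only [if_pos huB, if_pos hvB]
      exact h2.2 u (mem_union_right _ huB) v (mem_union_right _ hvB) huv
    · simp only [if_pos huB, if_neg hvB]
      rcases mem_union.1 (hTA v hv hvB) with h | h
      · rw [hT v h]
        exact h2.2 u (mem_union_right _ huB) v (mem_union_left _ h) huv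
      · exact absurd huv.symm (hs.ne v h u huB)
    · simp only [if_neg huB, if_pos hvB]
      rcases mem_union.1 (hTA u hu huB) with h | h
      · rw [hT u h]
        exact h2.2 u (mem_union_left _ h) v (mem_union_right _ hvB) huv
      · exact absurd huv (hs.ne u h v hvB)
    · simp only [if_neg huB, if_neg hvB]
      exact h1.2 u (hTA u hu huB) v (hTA v hv hvB) huv

/-- the terminals `x`, `y` are forced equal -/
def Frc (G : SimpleGraph V) (A : Finset V) (x y : V) : Prop := ∀ c, PC G A c → c x = c y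

theorem pc_of_cols (h : (cols G S 4).Nonempty) : ∃ c, PC G S c := by
  obtain ⟨c, hc⟩ := h
  obtain ⟨h1, _, h3⟩ := mem_cols.1 hc
  exact ⟨c, h1, h3⟩

theorem frc_iff {x y : V} (hxy : x ≠ y) (hx : x ∈ S) (hy : y ∈ S) :
    cols (add G x y) S 4 = ∅ ↔ Frc G S x y := by
  constructor
  · intro h c hc
    by_contra hne
    have : (fun v => if v ∈ S then c v else 0) ∈ cols (add G x y) S 4 := by
      refine mem_cols.2 ⟨fun v hv => ?_, fun v hv => ?_, fun u hu v hv huv => ?_⟩
      · simp only [if_pos hv]; exact hc.1 v hv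
      · simp only [if_neg hv]
      · simp only [if_pos hu, if_pos hv]
        rcases huv with h' | ⟨_, ⟨rfl, rfl⟩ | ⟨rfl, rfl⟩⟩
        · exact hc.2 u hu v hv h'
        · exact hne
        · exact fun e => hne e.symm
    rw [h] at this
    exact absurd this (notMem_empty _)
  · intro h
    rw [← not_nonempty_iff_eq_empty]
    rintro ⟨c, hc⟩
    obtain ⟨h1, _, h3⟩ := mem_cols.1 hc
    exact h3 x hx y hy (Or.inr ⟨hxy, Or.inl ⟨rfl, rfl⟩⟩)
      (h c ⟨h1, fun u hu v hv huv => h3 u hu v hv (Or.inl huv)⟩)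

theorem exists_other (a b : ℕ) : ∃ k < 4, k ≠ a ∧ k ≠ b := by
  by_cases h0 : 0 ≠ a ∧ 0 ≠ b
  · exact ⟨0, by omega, h0⟩
  by_cases h1 : 1 ≠ a ∧ 1 ≠ b
  · exact ⟨1, by omega, h1⟩
  exact ⟨2, by omega, by omega, by omega⟩

/-- no separation of order at most 1 in a 2-connected graph -/
theorem two_no (h : TwoConn G S) (hT : T.card ≤ 1) : ¬ Sepn G S T A B := by
  intro hs
  obtain ⟨_, hc, h1⟩ := h
  rcases Nat.le_one_iff_eq_zero_or_eq_one.1 hT with h0 | h0
  · rw [card_eq_zero] at h0
    subst h0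
    have : Conn G (S \ ∅) := by rwa [sdiff_empty]
    exact ((conn_sdiff_iff (empty_subset S)).1 this).2 A B hs
  · obtain ⟨x, rfl⟩ := card_eq_one.1 h0
    have : Conn G (S \ {x}) := by
      rw [sdiff_singleton_eq_erase]; exact h1 x (hs.subT (mem_singleton_self x))
    exact ((conn_sdiff_iff hs.subT).1 this).2 A B hs

theorem two_of (h2 : 2 ≤ S.card) (h : ∀ T A B : Finset V, T.card ≤ 1 → ¬ Sepn G S T A B) :
    TwoConn G S := by
  have hno : ∀ T : Finset V, T.card ≤ 1 → T ⊆ S → Conn G (S \ T) := by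
    intro T hT hTS
    refine (conn_sdiff_iff hTS).2 ⟨?_, fun P Q hs => h T P Q hT hs⟩
    rw [sdiff_nonempty]
    intro hsub
    have := card_le_card hsub
    omega
  refine ⟨h2, ?_, fun v hv => ?_⟩
  · have := hno ∅ (by simp) (empty_subset S)
    rwa [sdiff_empty] at this
  · have := hno {v} (by simp) (singleton_subset_iff.2 hv)
    rwa [sdiff_singleton_eq_erase] at this

/-- one step of the descent: a separation of order at most 1 of a bad side with `x` and `y` on
different sides gives a smaller bad side -/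
theorem bad_step {S1 S2 : Finset V} {x y : V} (h : C2 G S1 S2 x y) (hf : Frc G S1 x y)
    (hc : ∃ c, PC G S1 c) (hT : T.card ≤ 1) (hs : Sepn G S1 T A B) (hx : x ∈ A) (hy : y ∈ B) :
    ∃ (S1' S2' : Finset V) (x' y' : V), C2 G S1' S2' x' y' ∧ S1' ∪ S2' = S1 ∪ S2 ∧
      Frc G S1' x' y' ∧ S1'.card < S1.card := by
  have hxB : x ∉ B := hs.pq x hx
  have hyA : y ∉ A := fun h1 => hs.pq y h1 hy
  have hTA : T ∪ A ⊆ S1 := union_subset hs.subT hs.subP
  have hTB : T ∪ B ⊆ S1 := union_subset hs.subT hs.subQ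
  -- a permutation of the colours on `B` which fixes the colours on `T` keeps `y`
  have key : ∀ c, PC G S1 c → ∃ w ∈ T, c w = c y := by
    intro c hcc
    by_contra hcon
    push Not at hcon
    have hcy := hcc.1 y (hs.subQ hy)
    obtain ⟨k, hk4, hk1, hk2⟩ : ∃ k < 4, k ≠ c y ∧ ∀ w ∈ T, k ≠ c w := by
      rcases Nat.le_one_iff_eq_zero_or_eq_one.1 hT with h0 | h0
      · rw [card_eq_zero] at h0
        subst h0
        obtain ⟨k, h1, h2, _⟩ := exists_other (c y) (c y)
        exact ⟨k, h1, h2, fun w hw => absurd hw (notMem_empty w)⟩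
      · obtain ⟨w, rfl⟩ := card_eq_one.1 h0
        obtain ⟨k, h1, h2, h3⟩ := exists_other (c y) (c w)
        exact ⟨k, h1, h2, fun w' hw' => by rw [mem_singleton.1 hw']; exact h3⟩
    have h1 := PC.comb hs (hcc.sub hTA) ((hcc.sub hTB).perm hcy hk4) (fun v hv => by
      rw [Equiv.swap_apply_of_ne_of_ne (hcon v hv) (fun e => hk2 v hv e.symm)])
    have h2 := hf _ h1
    simp only [if_neg hxB, if_pos hy, Equiv.swap_apply_left] at h2
    exact hk1 (h2.symm.trans (hf c hcc))
  obtain ⟨c0, hc0⟩ := hc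
  obtain ⟨w, hw, hwy⟩ := key c0 hc0
  have hTw : T = {w} := by
    apply eq_singleton_iff_unique_mem.2
    refine ⟨hw, fun v hv => ?_⟩
    exact card_le_one.1 hT v hv w hw
  subst hTw
  have hwA : w ∉ A := hs.tp w hw
  have hwB : w ∉ B := hs.tq w hw
  have hkey2 : ∀ c, PC G S1 c → c w = c y := fun c hcc => by
    obtain ⟨w', hw', h1⟩ := key c hcc
    rwa [mem_singleton.1 hw'] at h1
  have hwS := hs.subT hw
  -- `x` and `w` are forced equal
  have hfr : Frc G ({w} ∪ A) x w := by
    intro c1 hc1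
    have hw1 := hc1.1 w (mem_union_left _ hw)
    have hw0 := hc0.1 w hwS
    have h1 := PC.comb hs hc1 ((hc0.sub hTB).perm hw0 hw1) (fun v hv => by
      rw [mem_singleton.1 hv, Equiv.swap_apply_left])
    have h2 := hf _ h1
    have h3 := hkey2 _ h1
    simp only [if_neg hxB, if_neg hwB, if_pos hy] at h2 h3
    exact h2.trans h3.symm
  have hxw : x ≠ w := fun e => hwA (e ▸ hx)
  have hm := h.mem
  refine ⟨{w} ∪ A, S2 ∪ ({w} ∪ B), x, w, ⟨?_, ?_, hxw, ?_, ?_, ?_⟩, ?_, hfr, ?_⟩
  · have e : {w} ∪ A ∪ (S2 ∪ ({w} ∪ B)) = S1 ∪ S2 := by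
      ext v
      have := hs.un v
      simp only [mem_union] at this ⊢
      tauto
    rw [e]
    exact h.two
  · ext v
    have e1 := hs.un v
    have e2 : v ∈ S1 → v ∈ S2 → v = x ∨ v = y := fun h1 h2 => by
      have : v ∈ S1 ∩ S2 := mem_inter.2 ⟨h1, h2⟩
      rw [h.int] at this
      simpa using this
    simp only [mem_inter, mem_union, mem_singleton, mem_insert] at e1 ⊢
    constructor
    · rintro ⟨h1 | h1, h2⟩
      · exact Or.inr h1
      · rcases h2 with h2 | h2 | h2
        · rcases e2 (e1.2 (Or.inr (Or.inl h1))) h2 with h3 | h3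
          · exact Or.inl h3
          · exact absurd (h3 ▸ h1) hyA
        · exact Or.inr h2
        · exact absurd h2 (hs.pq v h1)
    · rintro (rfl | rfl)
      · exact ⟨Or.inr hx, Or.inl hm.1.2⟩
      · exact ⟨Or.inl rfl, Or.inr (Or.inl rfl)⟩
  · intro a ha ha' b hb hb' hab
    simp only [mem_union, mem_singleton, not_or] at ha ha' hb hb'
    have haA : a ∈ A := ha.resolve_left ha'.2.1
    have haS := hs.subP haA
    rcases hb with hb | hb | hb
    · by_cases hbS : b ∈ S1
      · rcases (hs.un b).1 hbS with h1 | h1 | h1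
        · exact hb'.1 (mem_singleton.1 h1)
        · exact hb'.2 h1
        · exact hs.ne a haA b h1 hab
      · exact h.sep a haS ha'.1 b hb hbS hab
    · exact hb'.1 hb
    · exact hs.ne a haA b hb hab
  · intro hsub
    -- then `A = {x}`, and the colouring `x ↦ 0`, `w ↦ 1` is proper or `x w` is an edge
    have hA : ∀ a ∈ A, a = x := by
      intro a ha
      have h1 := hsub (mem_union_right _ ha)
      rcases mem_union.1 h1 with h2 | h2
      · have : a ∈ S1 ∩ S2 := mem_inter.2 ⟨hs.subP ha, h2⟩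
        rw [h.int, mem_insert, mem_singleton] at this
        rcases this with h3 | h3
        · exact h3
        · exact absurd (h3 ▸ ha) hyA
      · rcases mem_union.1 h2 with h3 | h3
        · exact absurd ha (hs.tp a h3)
        · exact absurd h3 (hs.pq a ha)
    have hnadj : ¬ G.Adj x w := fun hadj =>
      hc0.2 x (hs.subP hx) w hwS hadj (by rw [hf c0 hc0, hwy])
    have h1 : PC G ({w} ∪ A) (fun v => if v = x then 0 else 1) := by
      refine ⟨fun v _ => by by_cases hv : v = x <;> simp [hv], fun u hu v hv huv => ?_⟩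
      have e : ∀ v ∈ ({w} : Finset V) ∪ A, v = w ∨ v = x := fun v hv => by
        rcases mem_union.1 hv with h2 | h2
        · exact Or.inl (mem_singleton.1 h2)
        · exact Or.inr (hA v h2)
      rcases e u hu with rfl | rfl <;> rcases e v hv with rfl | rfl
      · exact absurd rfl huv.ne
      · exact absurd huv.symm hnadj
      · exact absurd huv hnadj
      · exact absurd rfl huv.ne
    have h2 := hfr _ h1
    simp [hxw.symm] at h2
  · intro hsub
    have h1 := hsub (mem_union_right _ (mem_union_right _ hy))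
    rcases mem_union.1 h1 with h2 | h2
    · exact hwB (mem_singleton.1 h2 ▸ hy)
    · exact hyA h2
  · ext v
    have := hs.un v
    simp only [mem_union] at this ⊢
    tauto
  · apply card_lt_card
    refine ⟨hTA, fun hsub => ?_⟩
    rcases mem_union.1 (hsub (hs.subQ hy)) with h2 | h2
    · exact hwB (mem_singleton.1 h2 ▸ hy)
    · exact hyA h2

/-- a minimal bad side is 2-connected -/
theorem bad {S1 S2 : Finset V} {x y : V} (h : C2 G S1 S2 x y)
    (hb : cols (add G x y) S1 4 = ∅) (h4 : (cols G (S1 ∪ S2) 4).Nonempty) :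
    ∃ (S1' S2' : Finset V) (x' y' : V), C2 G S1' S2' x' y' ∧ S1' ∪ S2' = S1 ∪ S2 ∧
      cols (add G x' y') S1' 4 = ∅ ∧ TwoConn G S1' := by
  classical
  obtain ⟨c0, hc0⟩ := pc_of_cols h4
  have hex : ∃ n, ∃ (S1' S2' : Finset V) (x' y' : V), C2 G S1' S2' x' y' ∧
      S1' ∪ S2' = S1 ∪ S2 ∧ Frc G S1' x' y' ∧ S1'.card = n :=
    ⟨_, S1, S2, x, y, h, rfl, (frc_iff h.xy h.mem.1.1 h.mem.2.1).1 hb, rfl⟩
  obtain ⟨S1', S2', x', y', hC, hU, hF, hn⟩ := Nat.find_spec hex
  refine ⟨S1', S2', x', y', hC, hU, (frc_iff hC.xy hC.mem.1.1 hC.mem.2.1).2 hF, ?_⟩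
  have hc' : ∃ c, PC G S1' c := ⟨c0, hc0.sub (by rw [← hU]; exact subset_union_left)⟩
  refine two_of hC.side.1 fun T A B hT hs => ?_
  have hno : ∀ A B : Finset V, Sepn G S1' T A B → x' ∈ A → y' ∈ B → False := by
    intro A B hs hx hy
    obtain ⟨S1'', S2'', x'', y'', h1, h2, h3, h4⟩ := bad_step hC hF hc' hT hs hx hy
    exact Nat.find_min hex (hn ▸ h4) ⟨S1'', S2'', x'', y'', h1, h2.trans hU, h3, rfl⟩
  by_cases h1 : x' ∈ A ∧ y' ∈ B
  · exact hno A B hs h1.1 h1.2
  by_cases h2 : x' ∈ B ∧ y' ∈ A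
  · exact hno B A hs.symm h2.1 h2.2
  refine two_no hC.side hT (hs.antiS (G := add G x' y') ?_)
  intro u hu v hv huv
  rcases huv with h' | ⟨_, ⟨rfl, rfl⟩ | ⟨rfl, rfl⟩⟩
  · exact h'
  · exact absurd ⟨hu, hv⟩ h1
  · exact absurd ⟨hv, hu⟩ h2

end Pool.Agent.Xu.X2.H25
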