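import Pool.Agent.Lib.MP_144d21_co.PSI.All
import Pool.Agent.Lib.MP_144d21_co.X2.H25.All2
import Pool.Agent.Lib.MP_144d21_co.X2.H35.Deg3
import Pool.Agent.Lib.MP_144d21_co.X2.H44.Cut3all
import Pool.Agent.Lib.MP_144d21_co.X2.H60.Iq4f
import Pool.Agent.Lib.MP_144d21_co.X2.H86.Loop
import Pool.Agent.Lib.MP_144d21_co.XU3.H52.Rkd3

/-!
# MP_144d21_co, X2: Xu's conjecture for `k = 3`, all modules together
-/

set_option autoImplicit false

namespace Pool.Agent.Xu.X2.Fin3

open Finset Pool.Agent.Xu Pool.Agent.Xu.X2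

theorem iq4' : Iq4S := H60.iq4row (H60.s4 All2.two') psi_all All.thma X52.rkd3 All2.kn'

theorem deg3' : Deg3S := H35.deg3 dg3 bmon H87.chg H44.bposAll

theorem cut3' : Cut3S := H44.cut3all bnn

/-- the inequality IQ -/
theorem iq' (h2 : Cut2S) : IqS := H86.loop H43.dich H43.degge h2 deg3' cut3' iq4'

/-- Xu's conjecture for `k = 3` -/
theorem xu' (h2 : Cut2S) : XuS := H86.xu All.block (H86.xucore (iq' h2) All.corenum)

end Pool.Agent.Xu.X2.Fin3
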